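import Mathlib

set_option autoImplicit false

namespace Pool.Agent.Results.MP_7d7944_co.Counter

open Finset

abbrev V (n : ℕ) := Fin n → ZMod 2

variable {n m : ℕ}

/-- Bent (perfect nonlinear). -/
def Bent (F : V n → V m) : Prop :=
  ∀ a ≠ 0, ∀ b, #{x | F (x + a) + F x = b} = 2 ^ (n - m)

/-- Almost balanced of type `(-)`. -/
def TypeMinus (F : V n → V m) : Prop :=
  ∃ α, #{x | F x = α} + 2 ^ (n / 2) = 2 ^ (n - m) + 2 ^ (n / 2 - m) ∧
    ∀ β ≠ α, #{x | F x = β} = 2 ^ (n - m) + 2 ^ (n / 2 - m)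

abbrev K := GaloisField 2 7
noncomputable instance : Fintype K := Fintype.ofFinite _
noncomputable instance : DecidableEq K := Classical.decEq _

lemma cK : Fintype.card K = 128 := by
  rw [← Nat.card_eq_fintype_card, GaloisField.card 2 7 (by norm_num)]; rfl

lemma few (A : K →ₗ[ZMod 2] K) (g : K → K) :
    #{ρ : K → K | #{p : K × K | p.1 * p.2 + ρ p.2 + (A p.1 + g p.2) = 0} = 1} ≤
      128 * (128 * 64 ^ 127) := by
  let S (y : K) : Finset K := {r | ∀ x, x * y + r + (A x + g y) ≠ 0}
  have : ∀ y₀, #(Fintype.piFinset fun y => if y = y₀ then univ else S y) ≤ 128 * 64 ^ 127 := by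
    intro y₀
    by_cases h : ∃ y ≠ y₀, S y = ∅
    · obtain ⟨y, h1, h2⟩ := h
      rw [Fintype.card_piFinset, prod_eq_zero (mem_univ y) (by simp [h1, h2])]; positivity
    push Not at h
    have s : ∀ y ≠ y₀, ∃ x ≠ 0, A x / x = y := fun y hy => by
      obtain ⟨r, hr⟩ := h y hy
      by_contra! k
      obtain ⟨x, hx⟩ := Finite.injective_iff_surjective.1 ((injective_iff_map_eq_zero
        (A + LinearMap.mulRight _ y)).2 fun x hx => by_contra fun l => k x l (by
          rw [div_eq_iff l, mul_comm]; exact CharTwo.add_eq_zero.1 hx)) (r + g y)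
      refine (mem_filter.1 hr).2 x ?_
      simp only [LinearMap.add_apply, LinearMap.mulRight_apply] at hx
      linear_combination hx + (r + g y) * CharTwo.two_eq_zero (R := K)
    have i : Set.InjOn (fun x => A x / x) (univ.erase 0 : Finset K) := card_image_iff.1
      (card_image_le.antisymm (le_trans (by simp) (card_le_card (s := univ.erase y₀) fun y hy => by
        simpa [and_comm] using s y (by simpa using hy))))
    rw [Fintype.card_piFinset, ← mul_prod_erase _ _ (mem_univ y₀), if_pos rfl, card_univ, cK]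
    refine Nat.mul_le_mul_left _ ((prod_le_pow_card _ _ 64 fun y hy => ?_).trans (by simp [cK]))
    rw [if_neg (mem_erase.1 hy).1]
    have := card_le_mul_card_image (f := fun x => x * y + (A x + g y)) univ 2 fun b hb => by
      obtain ⟨x₀, -, rfl⟩ := mem_image.1 hb
      obtain ⟨w, w1, w2⟩ := s y (mem_erase.1 hy).1
      refine (card_le_card fun x hx => ?_).trans (card_le_two (a := x₀) (b := x₀ + w))
      have hx := (mem_filter.1 hx).2
      by_cases q : x - x₀ = 0
      · simp [sub_eq_zero.1 q]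
      have : x - x₀ = w := i (by simpa using q) (by simpa using w1) (by
        simp only [w2]; rw [div_eq_iff q, map_sub]
        linear_combination hx - (x - x₀) * y * CharTwo.two_eq_zero (R := K))
      simp [← this]
    have := card_add_card_compl (S y)
    have : #(univ.image fun x => x * y + (A x + g y)) ≤ #(S y)ᶜ := card_le_card fun r hr => by
      obtain ⟨x, -, rfl⟩ := mem_image.1 hr
      simp only [S, mem_compl, mem_filter, mem_univ, true_and, not_forall, not_not]
      exact ⟨x, by linear_combination (x * y + A x + g y) * CharTwo.two_eq_zero (R := K)⟩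
    simp only [card_univ, cK] at *
    omega
  refine le_trans (card_le_card (t := univ.biUnion fun y₀ =>
    Fintype.piFinset fun y => if y = y₀ then univ else S y) fun ρ h => ?_)
    ((card_biUnion_le_card_mul _ _ _ fun y _ => this y).trans (by simp [cK]))
  obtain ⟨p, hp⟩ := card_eq_one.1 (mem_filter.1 h).2
  refine mem_biUnion.2 ⟨p.2, mem_univ _, Fintype.mem_piFinset.2 fun y => ?_⟩
  split_ifs with q
  · exact mem_univ _
  exact mem_filter.2 ⟨mem_univ _, fun x hx => q (congrArg Prod.snd (mem_singleton.1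
    (hp ▸ mem_filter.2 ⟨mem_univ (x, y), hx⟩)))⟩

lemma ex : ∃ ρ : K → K, ∀ (A B : K →ₗ[ZMod 2] K) (z : K),
    #{p : K × K | p.1 * p.2 + ρ p.2 + (A p.1 + (B p.2 + z)) = 0} ≠ 1 := by
  have := Module.finite_of_finite (ZMod 2) (M := K →ₗ[ZMod 2] K)
  have := Fintype.ofFinite (K →ₗ[ZMod 2] K)
  have c : Fintype.card (K →ₗ[ZMod 2] K) = 2 ^ 49 := by
    rw [Module.card_eq_pow_finrank (K := ZMod 2), Module.finrank_linearMap,
      GaloisField.finrank 2 (by norm_num)]; rfl
  by_contra! h
  have := (card_le_card (s := univ) fun ρ _ => ?_).trans (card_biUnion_le_card_mul univ _ _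
    fun (t : (K →ₗ[ZMod 2] K) × (K →ₗ[ZMod 2] K) × K) _ => few t.1 fun y => t.2.1 y + t.2.2)
  · simp only [card_univ, Fintype.card_prod, Fintype.card_fun, c, cK] at this
    norm_num at this
  obtain ⟨A, B, z, e⟩ := h ρ
  exact mem_biUnion.2 ⟨(A, B, z), mem_univ _, mem_filter.2 ⟨mem_univ _, e⟩⟩

theorem result : ∃ F : V 14 → V 7, Bent F ∧
    ∀ L : V 14 →ₗ[ZMod 2] V 7, ¬ TypeMinus fun x => F x + L x := by
  obtain ⟨ρ, h⟩ := ex
  have f := GaloisField.finrank 2 (n := 7) (by norm_num)
  let e : K ≃ₗ[ZMod 2] V 7 := .ofFinrankEq _ _ (by simp [f])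
  let d : V 14 ≃ₗ[ZMod 2] K × K := .ofFinrankEq _ _ (by simp [f])
  refine ⟨fun x => e ((d x).1 * (d x).2 + ρ (d x).2), fun a ha b => ?_, fun L ⟨α, h1, _⟩ => ?_⟩
  · obtain ⟨b, rfl⟩ := e.surjective b
    rw [show 2 ^ (14 - 7) = #(univ : Finset K) by simp [cK]]
    simp only [← map_add e, e.injective.eq_iff, map_add d, Prod.fst_add, Prod.snd_add]
    have ha := d.map_ne_zero_iff.2 ha
    generalize d a = a at ha
    have t := CharTwo.two_eq_zero (R := K)
    by_cases q : a.2 = 0
    · have ha : a.1 ≠ 0 := fun k => ha (Prod.ext k q)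
      refine card_nbij' (fun x => (d x).1) (fun x => d.symm (x, b / a.1)) (by simp [Set.MapsTo])
        (fun x _ => ?_) (fun x hx => ?_) (fun x _ => by simp)
      · simp [q]; field_simp; linear_combination (x * b + a.1 * ρ (b / a.1)) * t
      · simp [q] at hx
        rw [d.symm_apply_eq, Prod.ext_iff, eq_comm (b := (d x).2), eq_div_iff ha]
        exact ⟨rfl, by linear_combination hx - ((d x).1 * (d x).2 + ρ (d x).2) * t⟩
    · refine card_nbij' (fun x => (d x).2) (fun y => d.symm ((b + a.1 * (y + a.2) + ρ (y + a.2) +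
        ρ y) / a.2, y)) (by simp [Set.MapsTo]) (fun y _ => ?_) (fun x hx => ?_) (fun x _ => by simp)
      · simp; field_simp
        linear_combination (y * (b + a.1 * (y + a.2) + ρ (y + a.2) + ρ y) +
          a.2 * (a.1 * (y + a.2) + ρ (y + a.2) + ρ y)) * t
      · simp at hx
        rw [d.symm_apply_eq, Prod.ext_iff, div_eq_iff q]
        exact ⟨by linear_combination -hx + ((d x).1 * (d x).2 + a.1 * ((d x).2 + a.2) +
          ρ ((d x).2 + a.2) + ρ (d x).2) * t, rfl⟩
  · let M := e.symm.toLinearMap ∘ₗ L ∘ₗ d.symm.toLinearMap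
    refine h (M ∘ₗ .inl _ _ _) (M ∘ₗ .inr _ _ _) (-e.symm α) ((card_equiv d.symm.toEquiv fun p => ?_).trans
      (Nat.add_right_cancel (m := 128) h1))
    have : L (d.symm p) = L (d.symm (p.1, 0)) + L (d.symm (0, p.2)) := by
      rw [← map_add, ← map_add]; simp
    simp [M, ← add_assoc, add_neg_eq_zero, e.eq_symm_apply, this]

end Pool.Agent.Results.MP_7d7944_co.Counter
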